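import Pool.Agent.D0H41.OC.Cov3

/-!
# Vojta's height inequality for all covers of `ℙⁿ`, all reduced divisors `D`, with truncated counting
# functions and proximity functions, at all points of full degree above almost all rational points,
# with branch components of arbitrary degrees

Let `π : X → ℙⁿ`, `n ≥ 2`, be ANY finite cover of degree `N` by a normal variety, defined over `ℚ` (or
over a number field `k`, then `N = [k : ℚ] deg π`). Let `D_j : F_j = 0`, `j = 1, …, r`, be distinct
hypersurfaces, where `F_j` is a form of degree `k_j` with rational coefficients, irreducible over `ℚ`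
(with arbitrary singularities and intersections), let `E_c` be the prime divisors of `X` above the
`D_j`, with the ramification indices `e_c` and the residue degrees `d_c`, let `D ⊆ X` be a reduced
divisor, and let `S` and `S'` be finite sets of primes. We put
`λ_c = e_c d_c / N`; the sum of these numbers over the `E_c` above `D_j` is `1`. If the `D_j` contain
the branch divisor of `π` and the images of the components of `D`, then for all points `P` of degree
`N` above a rational point `x`

`h_{K_X + D}(P) = (∑_{E_c ⊄ D} λ_c (1 - 1 / e_c) k_c + ∑_{E_c ⊆ D} λ_c k_c - n - 1) h(x) + O(1)`,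

`k_c` being the degree of the image of `E_c` (since `N h_{E_c}(P) = h_{π_* E_c}(x) + O(1)`).

We prove that, for all `θ < ∑_c λ_c w_c`,

`θ h(x) + M m_{S'}(R, x) + Λ ∑_l h_{(F'_l, G'_l)}(x) ≤ d(P) + N_S^{(1)}(D, P) + ∑_{p ∈ S} log p`    (*)

for all `S` and ALL points `P ∉ D` of degree `N` above almost all rational points `x` of `ℙⁿ` (by
Hilbert's irreducibility theorem all points of `X` above 100 % of the `x` have degree `N`); here
`d(P)` is the logarithmic discriminant, `N_S^{(1)}(D, P)` is the truncated counting function of `D`,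
`m_{S'}(R, x)` is the proximity function of any hypersurface `R = 0` of `ℙⁿ` (with arbitrary
multiplicities) for the primes in `S'` and the infinite place, `M` is as large as we like, so that
`M m_{S'}(R, x)` bounds the proximity function `∑_{v ∈ S'} λ_{D', v}(P)` of ANY divisor `D'` of `X`
(up to `O(1)`), `h_{(F', G')}` is the height relative to the ideal `(F', G')` of codimension two, and
`Λ` is as large as we like. The weights are `w_c = orbWeight a e_c k_c` if
`E_c ⊄ D`, and `w_c = orbWeight a 0 k_c = weight a k_c` if `E_c ⊆ D`, where `a = 1 + 1 / n` (or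
`a = m` if the image of `E_c` is an orbit of conjugate hyperplanes whose linear forms span a space of
dimension `m`) and

* `orbWeight a e k = (1 - 1 / e) k` if `k < 3 a`: for ALL components of degree at most `3`, and for
  all plane curves of degree at most `4` (here and below `1 / 0 = 0`);
* `orbWeight a e k = (1 - 1 / e) weight a k` if `e` is a prime number and `k < (e + 1) a`, where
  `weight a k = 2 a + (k mod a) / (⌊k / a⌋ - 1)` for `k ≥ 3 a`;
* `orbWeight a e k = max ((1 - 1 / e) a) (weight a k - k / e)` in the other cases.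

So the inequality `h_{K_X + D}(P) ≤ d(P) + N_S^{(1)}(D, P) + ε h_A(P) + O(1)`, which is stronger than
Vojta's inequality `∑_{v ∈ S} λ_{D, v}(P) + h_{K_X}(P) ≤ d(P) + ε h_A(P) + O(1)`, even after adding
the proximity function of any other divisor to the left-hand side, holds at all points `P` of degree
`N` above almost all `x` if the sum of the `λ_c ((1 - 1 / e_c) k_c - w_c)`, `E_c ⊄ D`, and of the
`λ_c (k_c - w_c)`, `E_c ⊆ D`, is at most `n + 1`: in particular

* for ALL covers of `ℙⁿ`, all `D` and all `S` for which the components of the branch divisor and of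
  the image of `D` have degree at most `3` over `ℚ` (at most `4` if `n = 2`): any number of
  components, any ramification, any singularities;
* if there is one more component, of degree `≤ n + 3` (`≤ 6` if `n = 2`).

**Almost all** has two meanings: all but `C B ^ {n + 1 - c}` of the primitive `x` with `|x| ≤ B`, for
some `c > 0`; and all `x` of large height outside a set `Z` of density zero which depends only on `n`:
it is the same set for ALL covers `X`, all `D`, `S`, `S'`, `θ`, `R`, `M`, `Λ` and all ideals. The term with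
`Λ` bounds the heights relative to all divisors which are contracted to subsets of codimension at
least two of `ℙⁿ`, so that the inequalities hold on the smooth models of `X` too: hence for ALL smooth
projective varieties `X` with a generically finite map to `ℙⁿ`.

**The covers.** `A` is the ring of the functions on `X` which are regular above the affine space
`x_0 ≠ 0`: any normal domain which is finite over `ℚ[z_1, …, z_n]` and contains it. The points of `X`
of degree `N` above `x` are the surjective homomorphisms `ψ` of `A` to number fields `L` of degree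
`N` which extend the evaluation at `z = (x_1 / x_0, …, x_n / x_0)`. The prime divisors above `D_j` are
the prime ideals `𝔮_c` of `A` above the prime ideal generated by `f_j = F_j(1, z)`. `D` is given by a
finite set `Y` of elements of `A` (for example by generators of its ideal; any closed subset of
`Spec A` is allowed): `E_c ⊆ D` if and only if all `y ∈ Y` are in `𝔮_c`, and the truncated counting
function is the sum of `log N(w) / [L : ℚ]` over the primes `w` of `L`, not above `S`, at which `z` is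
integral and all `ψ(y)`, `y ∈ Y`, are divisible by `w`.

Before, this was known only for components of degree at most two and conjugate hyperplanes
(CoversOfProjectiveSpace of this folder, over all number fields), and, for `D = ∅`, for components of
higher degrees if the cover is abelian, or if the ramification indices above each component are equal
(ComponentsOfAllDegrees and GaloisCovers of MP_9b9442_nt).

Proof. The localisation of `A` at the prime ideal `(f_j)` is a principal ideal domain; its prime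
elements give `g` (not divisible by `f_j`), `u, u', ζ_c ∈ A` with `g_1 f_j = u ∏_c ζ_c ^ {e_c}`,
`g = u u'`, `g_1 | g`, such that any two `ζ_c` generate an ideal containing `g`; and the determinant of
the multiplication by `ζ_c` is divisible by `f_j` exactly `d_c` times. So if a prime `p`, outside a
finite set, divides `F_j(x)` exactly `μ ≥ 1` times and does not divide `x_0` and the values of the
auxiliary forms, then the primes `w` of `L` above `p` fall into classes, one for each `E_c`: if
`P` meets `E_c` at `w`, then `e_c` divides `μ e(w)`, and the sum of `e(w) f(w)` over this class is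
`e_c d_c`, because it is at most `e_c d_c` by the determinants, and the sum over all classes is
`N = ∑_c e_c d_c`. So the primes above `p` contribute at least
`∑_c λ_c (1 - gcd (e_c, μ) / e_c) log p` to `d(P)`, and the primes which meet a component `E_c ⊆ D`
contribute `λ_c log p` to the sum of `d(P)` and of the truncated counting function. The bounds from
below of the weighted sums over the primes for almost all `x` are those of ComponentsOfAllDegrees.
-/

set_option autoImplicit false

namespace Pool.Agent.Results.MP_651af7_nt.AllCoversAllDivisors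

open MvPolynomial NumberField IsDedekindDomain

variable {n r q t : ℕ}

/-- the affine equation `F(1, z_1, …, z_n)` of a form `F` -/
noncomputable def affine (F : MvPolynomial (Fin (n + 1)) ℤ) : MvPolynomial (Fin n) ℚ :=
  eval₂ (C.comp (Int.castRingHom ℚ)) (Fin.cons 1 X) F

/-- the affine coordinates `z_i = x_i / x_0` -/
def coords (x : Fin (n + 1) → ℤ) : Fin n → ℚ := fun i => (x i.succ : ℚ) / x 0

/-- the ramification index of the prime ideal `𝔮` of `A` above the prime ideal generated by `f` is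
`e`: there is a generator `π` of the maximal ideal of the local ring `A_𝔮`, and `f` is a unit of
`A_𝔮` times `π ^ e` -/
def RamificationIndex {R A : Type} [CommRing R] [CommRing A] [Algebra R A] (f : R) (𝔮 : Ideal A)
    (e : ℕ) : Prop :=
  ∃ π ∈ 𝔮, (∀ y ∈ 𝔮, ∃ s, s ∉ 𝔮 ∧ ∃ b, s * y = b * π) ∧
    ∃ s s', s ∉ 𝔮 ∧ s' ∉ 𝔮 ∧ s * algebraMap R A f = s' * π ^ e

/-- the residue degree of the prime ideal `𝔮` of `A` above the prime ideal generated by `f` is at
most `d`: there are `a_1, …, a_d ∈ A` and `g ∈ R` not divisible by `f` such that every `b ∈ A`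
satisfies `g b ≡ ∑_l ρ_l a_l` modulo `𝔮` for some `ρ_l ∈ R` -/
def ResidueDegreeLE {R A : Type} [CommRing R] [CommRing A] [Algebra R A] (f : R) (𝔮 : Ideal A)
    (d : ℕ) : Prop :=
  ∃ g : R, ¬ f ∣ g ∧ ∃ a : Fin d → A, ∀ b : A, ∃ ρ : Fin d → R,
    algebraMap R A g * b - ∑ l, algebraMap R A (ρ l) * a l ∈ 𝔮

/-- The `𝔮_c` are the prime ideals of `A` above the prime ideals generated by the affine equations of
the `F_j` (`𝔮_c` is above `F_{J(c)}`), with the ramification indices `e_c` and the residue degrees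
`d_c`. (The residue degrees are at most `d_c`; since the sum of the `e_c d_c` over the `𝔮_c` above
`F_j` is the rank `N` of `A`, they are equal to `d_c`.) -/
structure PrimeDivisors (A : Type) [CommRing A] [Algebra (MvPolynomial (Fin n) ℚ) A] (N : ℕ)
    (F : Fin r → MvPolynomial (Fin (n + 1)) ℤ) (J : Fin q → Fin r) (𝔮 : Fin q → Ideal A)
    (e d : Fin q → ℕ) : Prop where
  prime : ∀ c, (𝔮 c).IsPrime
  above : ∀ c, (𝔮 c).comap (algebraMap (MvPolynomial (Fin n) ℚ) A) =
    Ideal.span {affine (F (J c))}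
  distinct : Function.Injective 𝔮
  all : ∀ j, ∀ 𝔭 : Ideal A, 𝔭.IsPrime →
    𝔭.comap (algebraMap (MvPolynomial (Fin n) ℚ) A) = Ideal.span {affine (F j)} →
    ∃ c, J c = j ∧ 𝔭 = 𝔮 c
  ramification : ∀ c, RamificationIndex (affine (F (J c))) (𝔮 c) (e c)
  residue : ∀ c, ResidueDegreeLE (affine (F (J c))) (𝔮 c) (d c)
  sum : ∀ j, ∑ c with J c = j, e c * d c = N

open Classical in
/-- `0` if the prime divisor `𝔮` is contained in the closed subset given by `Y`, and its ramification
index `e` if it is not -/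
noncomputable def index {A : Type} [CommRing A] (Y : Finset A) (𝔮 : Ideal A) (e : ℕ) : ℕ :=
  if ∀ y ∈ Y, y ∈ 𝔮 then 0 else e

/-- `F = 0` is an orbit of conjugate hyperplanes of rank `m`: `F(x) = c N_{E/ℚ}(∑ α_i x_i)` for a
number field `E`, a rational number `c` and elements `α_i` of `E` which span a space of dimension
`m` over `ℚ` -/
def IsNormForm (F : MvPolynomial (Fin (n + 1)) ℤ) (m : ℕ) : Prop :=
  ∃ (E : Type) (_ : Field E) (_ : NumberField E) (α : Fin (n + 1) → E) (c : ℚ),
    Module.finrank ℚ (Submodule.span ℚ (Set.range α)) = m ∧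
    ∀ x : Fin (n + 1) → ℤ, (eval x F : ℚ) = c * Algebra.norm ℚ (∑ i, (x i : E) * α i)

/-- `k` if `k < 3 a`, otherwise `2 a + (k mod a) / (⌊k / a⌋ - 1)` -/
noncomputable def weight (a : ℝ) (k : ℕ) : ℝ :=
  if (k : ℝ) < 3 * a then k
  else 2 * a + ((k : ℝ) - ⌊(k : ℝ) / a⌋₊ * a) / (⌊(k : ℝ) / a⌋₊ - 1)

/-- the weight of a prime divisor with the index `e` (`0` if it is contained in `D`, otherwise its
ramification index; `1 / 0 = 0`) and the image of degree `k` -/
noncomputable def orbWeight (a : ℝ) (e k : ℕ) : ℝ :=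
  if (k : ℝ) < 3 * a then (1 - 1 / (e : ℝ)) * k
  else if e.Prime ∧ (k : ℝ) < (e + 1) * a then (1 - 1 / (e : ℝ)) * weight a k
  else max ((1 - 1 / (e : ℝ)) * a) (weight a k - k / e)

/-- the weights of a prime divisor with the index `e` and the image `F = 0` of degree `k`:
`orbWeight (1 + 1 / n) e k`, and `orbWeight m e k` if the image is an orbit of conjugate hyperplanes
of rank `m` -/
def HasWeight (F : MvPolynomial (Fin (n + 1)) ℤ) (e k : ℕ) (w : ℝ) : Prop :=
  w = orbWeight (1 + 1 / (n : ℝ)) e k ∨ ∃ m : ℕ, 1 ≤ m ∧ IsNormForm F m ∧ w = orbWeight m e k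

/-- the exponential of the height of the point with homogeneous coordinates `x` (coprime integers) -/
def height (x : Fin (n + 1) → ℤ) : ℕ := Finset.univ.sup fun i => (x i).natAbs

/-- The height relative to the ideal `(F, G)` of the point with homogeneous coordinates `x` (coprime
integers), where `F` and `G` are forms of degrees `k` and `e`: the local height at the prime `p` is
`- log max (|F(x)|_p, |G(x)|_p)`, and the sum of these is `log gcd (F(x), G(x))`; the local height
at infinity is `- log max (|F(x)| / |x| ^ k, |G(x)| / |x| ^ e)`. -/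
noncomputable def idealHeight (F G : MvPolynomial (Fin (n + 1)) ℤ) (k e : ℕ)
    (x : Fin (n + 1) → ℤ) : ℝ :=
  Real.log (Int.gcd (eval x F) (eval x G)) -
    Real.log (max (|(eval x F : ℝ)| / (height x : ℝ) ^ k) (|(eval x G : ℝ)| / (height x : ℝ) ^ e))

/-- The proximity function of the hypersurface `R = 0` of degree `d` for the primes in `S` and the
infinite place: the local height at `p` is `- log |R(x)|_p`, and the local height at infinity is
`- log (|R(x)| / |x| ^ d)`. -/
noncomputable def proximity (S : Finset ℕ) (R : MvPolynomial (Fin (n + 1)) ℤ) (d : ℕ)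
    (x : Fin (n + 1) → ℤ) : ℝ :=
  ∑ p ∈ S, ((eval x R).natAbs.factorization p : ℝ) * Real.log p -
    Real.log (|(eval x R : ℝ)| / (height x : ℝ) ^ d)

/-- the absolute logarithmic discriminant `log |disc(L)| / [L : ℚ]` of a number field `L` -/
noncomputable def logDisc (L : Type) [Field L] [NumberField L] : ℝ :=
  Real.log |(discr L : ℝ)| / Module.finrank ℚ L

open Classical in
/-- The truncated counting function, outside `S`, of the closed subset of `Spec A` given by the
elements of `Y`, at the point `ψ` over `L`: the sum of `log N(w) / [L : ℚ]` over the primes `w` of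
`L`, not above the primes in `S`, with `|ψ(z_i)|_w ≤ 1` for all `i` and `|ψ(y)|_w < 1` for all
`y ∈ Y`. -/
noncomputable def truncated {A : Type} [CommRing A] [Algebra (MvPolynomial (Fin n) ℚ) A]
    (Y : Finset A) (S : Finset ℕ) {L : Type} [Field L] [NumberField L] (ψ : A →+* L) : ℝ :=
  (∑ᶠ w : HeightOneSpectrum (𝓞 L), if (∀ p ∈ S, (p : 𝓞 L) ∉ w.asIdeal) ∧
    (∀ i : Fin n, FinitePlace.mk w (ψ (algebraMap (MvPolynomial (Fin n) ℚ) A (X i))) ≤ 1) ∧
    (∀ y ∈ Y, FinitePlace.mk w (ψ y) < 1) then Real.log (Ideal.absNorm w.asIdeal) else 0) /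
      Module.finrank ℚ L

/-- The point with homogeneous coordinates `x` (coprime integers) is not on `x_0 = 0`, on any
`F_j = 0`, `F'_l = 0`, nor on `R = 0`, and for all number fields `L` of degree `N` and all points
`ψ` of `Spec A` with the residue field `L` above `x`, not in the closed subset given by `Y`, and all
finite sets `S` of primes:
`θ h + M m_{S'}(R, x) + Λ ∑ h_{(F'_l, G'_l)}(x) ≤ d(L) + N_S^{(1)}(Y, ψ) + ∑_{p ∈ S} log p`. -/
def AllPointsAbove (A : Type) [CommRing A] [Algebra (MvPolynomial (Fin n) ℚ) A] (N : ℕ)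
    (F : Fin r → MvPolynomial (Fin (n + 1)) ℤ) (Y : Finset A) (S' : Finset ℕ)
    (R : MvPolynomial (Fin (n + 1)) ℤ) (dR : ℕ)
    (F' G' : Fin t → MvPolynomial (Fin (n + 1)) ℤ) (k' e' : Fin t → ℕ) (M Λ : ℕ) (θ h : ℝ)
    (x : Fin (n + 1) → ℤ) : Prop :=
  x 0 ≠ 0 ∧ (∀ j, eval x (F j) ≠ 0) ∧ (∀ l, eval x (F' l) ≠ 0) ∧ eval x R ≠ 0 ∧
  ∀ (L : Type) [Field L] [NumberField L] (ψ : A →+* L),
    (∀ f : MvPolynomial (Fin n) ℚ, ψ (algebraMap (MvPolynomial (Fin n) ℚ) A f) =
      algebraMap ℚ L (eval (coords x) f)) →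
    Function.Surjective ψ → Module.finrank ℚ L = N → (∃ y ∈ Y, ψ y ≠ 0) →
    ∀ S : Finset ℕ, (∀ p ∈ S, p.Prime) →
    θ * h + M * proximity S' R dR x + Λ * ∑ l, idealHeight (F' l) (G' l) (k' l) (e' l) x ≤
      logDisc L + truncated (n := n) Y S ψ + ∑ p ∈ S, Real.log p

/-- there are at most `C B ^ (n + 1 - c)` exceptions of height at most `log B`, for some `c > 0` and
`C` (with `h = log B` in the inequality) -/
def AlmostAll (A : Type) [CommRing A] [Algebra (MvPolynomial (Fin n) ℚ) A] (N : ℕ)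
    (F : Fin r → MvPolynomial (Fin (n + 1)) ℤ) (Y : Finset A) (S' : Finset ℕ)
    (R : MvPolynomial (Fin (n + 1)) ℤ) (dR : ℕ)
    (F' G' : Fin t → MvPolynomial (Fin (n + 1)) ℤ) (k' e' : Fin t → ℕ) (M Λ : ℕ) (θ : ℝ) : Prop :=
  ∃ c : ℝ, 0 < c ∧ ∃ C : ℝ, ∀ B : ℕ, 1 ≤ B →
    (Set.ncard {x : Fin (n + 1) → ℤ | (∀ i, |x i| ≤ B) ∧ Finset.univ.gcd x = 1 ∧
      ¬ AllPointsAbove A N F Y S' R dR F' G' k' e' M Λ θ (Real.log B) x} : ℝ) ≤
        C * (B : ℝ) ^ ((n : ℝ) + 1 - c)

/-- the inequality holds for all points outside `Z` of height greater than some `T` -/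
def Outside (Z : Set (Fin (n + 1) → ℤ)) (A : Type) [CommRing A]
    [Algebra (MvPolynomial (Fin n) ℚ) A] (N : ℕ) (F : Fin r → MvPolynomial (Fin (n + 1)) ℤ)
    (Y : Finset A) (S' : Finset ℕ) (R : MvPolynomial (Fin (n + 1)) ℤ) (dR : ℕ)
    (F' G' : Fin t → MvPolynomial (Fin (n + 1)) ℤ) (k' e' : Fin t → ℕ) (M Λ : ℕ) (θ : ℝ) : Prop :=
  ∃ T : ℝ, ∀ x : Fin (n + 1) → ℤ, Finset.univ.gcd x = 1 → x ∉ Z → T < Real.log (height x) →
    AllPointsAbove A N F Y S' R dR F' G' k' e' M Λ θ (Real.log (height x)) x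

/-- the number of elements of `Z` with coordinates of absolute value at most `B` is `o(B ^ (n + 1))` -/
def DensityZero (Z : Set (Fin (n + 1) → ℤ)) : Prop :=
  ∀ ε : ℝ, 0 < ε → ∃ B₀ : ℕ, ∀ B : ℕ, B₀ ≤ B →
    (Set.ncard {x : Fin (n + 1) → ℤ | (∀ i, |x i| ≤ B) ∧ x ∈ Z} : ℝ) ≤ ε * (B : ℝ) ^ (n + 1)

theorem prim_of_gcd {x : Fin (n + 1) → ℤ} (hg : Finset.univ.gcd x = 1) :
    ∃ c : Fin (n + 1) → ℤ, ∑ i, c i * x i = 1 := by
  obtain ⟨f, hf⟩ := Finset.gcd_eq_sum_mul Finset.univ x
  rw [hg] at hf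
  exact ⟨f, by rw [hf]; exact Finset.sum_congr rfl fun i _ => mul_comm _ _⟩

theorem weights_le {F : MvPolynomial (Fin (n + 1)) ℤ} {k e : ℕ} {w : ℝ}
    (hw : HasWeight F e k w) : ∃ α, D0H41.OC.HasAlpha F α ∧ w ≤ D0H41.OC.ow α e k := by
  rcases hw with h | ⟨m, hm, h1, h2⟩
  · exact ⟨_, Or.inl rfl, le_of_eq h⟩
  · exact ⟨_, Or.inr ⟨m, hm, h1, rfl⟩, le_of_eq h2⟩

theorem above_mono {A : Type} [CommRing A] [Algebra (MvPolynomial (Fin n) ℚ) A] {N : ℕ}
    {F : Fin r → MvPolynomial (Fin (n + 1)) ℤ} {Y : Finset A} {S' : Finset ℕ}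
    {R : MvPolynomial (Fin (n + 1)) ℤ} {dR : ℕ}
    {F' G' : Fin t → MvPolynomial (Fin (n + 1)) ℤ} {k' e' : Fin t → ℕ} {M Λ : ℕ} {θ θ' h : ℝ}
    {x : Fin (n + 1) → ℤ} (hh : 0 ≤ h) (hθ : θ ≤ θ')
    (hI : AllPointsAbove A N F Y S' R dR F' G' k' e' M Λ θ' h x) :
    AllPointsAbove A N F Y S' R dR F' G' k' e' M Λ θ h x := by
  obtain ⟨h0, h1, h2, h3, h4⟩ := hI
  refine ⟨h0, h1, h2, h3, ?_⟩
  intro L i1 i2 ψ hψ hs hL hY S hS
  have := h4 L ψ hψ hs hL hY S hS
  have := mul_le_mul_of_nonneg_right hθ hh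
  linarith

theorem coef_mem (e : ℕ) : (0 : ℝ) ≤ 1 - 1 / (e : ℝ) ∧ 1 - 1 / (e : ℝ) ≤ 1 := by
  rcases Nat.eq_zero_or_pos e with rfl | he
  · norm_num
  · have he0 : (1 : ℝ) ≤ e := by exact_mod_cast he
    have h1 : (0 : ℝ) ≤ 1 / (e : ℝ) := by positivity
    have h2 : 1 / (e : ℝ) ≤ 1 := by
      rw [div_le_one (by linarith)]
      exact he0
    constructor <;> linarith

theorem orbWeight_nonneg (a : ℝ) (e k : ℕ) (ha : 0 < a) : 0 ≤ orbWeight a e k := by
  obtain ⟨h0, -⟩ := coef_mem e
  unfold orbWeight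
  split_ifs with h1 h2
  · exact mul_nonneg h0 (Nat.cast_nonneg _)
  · refine mul_nonneg h0 ?_
    have : 2 * a ≤ weight a k := N445.DF.wgt_two a k ha (by linarith)
    linarith
  · exact le_max_of_le_left (mul_nonneg h0 ha.le)

theorem orbWeight_pos (a : ℝ) (e k : ℕ) (ha : 0 < a) (he : e ≠ 1) (hk : 1 ≤ k) :
    0 < orbWeight a e k := by
  have h0 : (0 : ℝ) < 1 - 1 / (e : ℝ) := by
    rcases Nat.eq_zero_or_pos e with rfl | he0
    · norm_num
    · have he2 : (2 : ℝ) ≤ e := by exact_mod_cast (by omega : 2 ≤ e)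
      rw [sub_pos, div_lt_one (by linarith)]
      linarith
  have hk0 : (0 : ℝ) < k := by exact_mod_cast hk
  unfold orbWeight
  split_ifs with h1 h2
  · exact mul_pos h0 hk0
  · refine mul_pos h0 ?_
    have : 2 * a ≤ weight a k := N445.DF.wgt_two a k ha (by linarith)
    linarith
  · exact lt_max_of_lt_left (mul_pos h0 ha)

theorem nat_gap (a : ℝ) (e k : ℕ) (b : ℝ) (hb : 0 ≤ b)
    (h : (k : ℝ) - weight a k ≤ b) : (1 - 1 / (e : ℝ)) * k - orbWeight a e k ≤ b := by
  obtain ⟨h0, h01⟩ := coef_mem e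
  unfold orbWeight
  split_ifs with h1 h2
  · linarith
  · have h3 : (1 - 1 / (e : ℝ)) * ((k : ℝ) - weight a k) ≤ (1 - 1 / (e : ℝ)) * b :=
      mul_le_mul_of_nonneg_left h h0
    have h4 : (1 - 1 / (e : ℝ)) * b ≤ 1 * b := mul_le_mul_of_nonneg_right h01 hb
    linarith
  · have h3 := le_max_right ((1 - 1 / (e : ℝ)) * a) (weight a k - k / e)
    have h4 : (1 - 1 / (e : ℝ)) * k = k - k / e := by ring
    linarith

/-- the points above `x` -/
theorem above_of {A : Type} [CommRing A] [Algebra (MvPolynomial (Fin n) ℚ) A] {N : ℕ}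
    {F H : Fin r → MvPolynomial (Fin (n + 1)) ℤ} {J : Fin q → Fin r} {e : Fin q → ℕ}
    {Y : Finset A} {S' : Finset ℕ} {R : MvPolynomial (Fin (n + 1)) ℤ} {dR : ℕ}
    {F' G' : Fin t → MvPolynomial (Fin (n + 1)) ℤ} {k' e' : Fin t → ℕ} {M Λ c₀ : ℕ} {θ h C : ℝ}
    {x : Fin (n + 1) → ℤ} {lam : Fin q → ℝ} (hC : C ≤ c₀)
    (hcov : (∀ j, eval x (F j) ≠ 0) →
      ∀ (L : Type) [Field L] [NumberField L] (ψ : A →+* L),
        (∀ f : MvPolynomial (Fin n) ℚ, ψ (algebraMap (MvPolynomial (Fin n) ℚ) A f) =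
          algebraMap ℚ L (eval (D0H41.OC.crd x) f)) → Function.Surjective ψ →
        Module.finrank ℚ L = N → (∃ y ∈ Y, ψ y ≠ 0) → ∀ S : Finset ℕ, (∀ p ∈ S, p.Prime) →
        D0H41.OC.Psi F H J e lam x - C ≤
          D0H41.OC.ld L + D0H41.OC.tcount (n := n) Y S ψ + ∑ p ∈ S, Real.log p)
    (hI : D0H41.OC.Ineq2 F H J e lam F' G' k' e' R dR S' M Λ c₀ θ h x) :
    AllPointsAbove A N F Y S' R dR F' G' k' e' M Λ θ h x := by
  obtain ⟨h0, h1, h2, h3, h4⟩ := hI
  refine ⟨h0, h1, h2, h3, ?_⟩
  intro L _ _ ψ hψ hs hL hY S hS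
  have h5 := hcov h1 L ψ hψ hs hL hY S hS
  have h6 : θ * h + M * proximity S' R dR x + Λ * ∑ l, idealHeight (F' l) (G' l) (k' l) (e' l) x +
      c₀ ≤ D0H41.OC.Psi F H J e lam x := h4
  have h7 : logDisc L = D0H41.OC.ld L := rfl
  have h8 : truncated (n := n) Y S ψ = D0H41.OC.tcount (n := n) Y S ψ := rfl
  rw [h7, h8]
  linarith

/-- **Vojta's inequality on all covers of `ℙⁿ`, for all divisors.** -/
theorem result (n : ℕ) (hn : 2 ≤ n) :
    (∃ Z : Set (Fin (n + 1) → ℤ), DensityZero Z ∧
      -- for all covers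
      ∀ (A : Type) [CommRing A] [IsDomain A] [IsIntegrallyClosed A]
        [Algebra (MvPolynomial (Fin n) ℚ) A] [FaithfulSMul (MvPolynomial (Fin n) ℚ) A]
        [Module.Finite (MvPolynomial (Fin n) ℚ) A]
        (N : ℕ) (_ : Module.finrank (MvPolynomial (Fin n) ℚ) A = N)
        -- all hypersurfaces and the prime divisors above them
        (r q t : ℕ) (F : Fin r → MvPolynomial (Fin (n + 1)) ℤ) (k : Fin r → ℕ)
        (_ : ∀ j, (F j).IsHomogeneous (k j))
        (_ : ∀ j, Irreducible (map (Int.castRingHom ℚ) (F j)))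
        (_ : ∀ j, Irreducible (affine (F j)))
        (_ : ∀ i j, i ≠ j →
          ¬ Associated (map (Int.castRingHom ℚ) (F i)) (map (Int.castRingHom ℚ) (F j)))
        (J : Fin q → Fin r) (𝔮 : Fin q → Ideal A) (e d : Fin q → ℕ)
        (_ : PrimeDivisors A N F J 𝔮 e d)
        -- all `D` and `S'`
        (Y : Finset A) (S' : Finset ℕ) (_ : ∀ p ∈ S', p.Prime)
        (w : Fin q → ℝ) (_ : ∀ c, HasWeight (F (J c)) (index Y (𝔮 c) (e c)) (k (J c)) (w c))
        -- all divisors `R = 0` and all ideals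
        (R : MvPolynomial (Fin (n + 1)) ℤ) (dR : ℕ) (_ : R.IsHomogeneous dR) (_ : R ≠ 0)
        (F' G' : Fin t → MvPolynomial (Fin (n + 1)) ℤ) (k' e' : Fin t → ℕ)
        (_ : ∀ l, (F' l).IsHomogeneous (k' l))
        (_ : ∀ l, Irreducible (map (Int.castRingHom ℚ) (F' l)))
        (_ : ∀ l, ¬ map (Int.castRingHom ℚ) (F' l) ∣ map (Int.castRingHom ℚ) (G' l))
        (M Λ : ℕ),
        -- the inequality for all `θ < ∑ λ_c w_c`
        (∀ θ : ℝ, θ < ∑ c, (e c * d c : ℝ) / N * w c →
          AlmostAll A N F Y S' R dR F' G' k' e' M Λ θ ∧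
          (0 ≤ θ → Outside Z A N F Y S' R dR F' G' k' e' M Λ θ)) ∧
        -- Vojta's inequality
        ((n : ℝ) + 1 ≤
            ∑ c, (e c * d c : ℝ) / N * ((1 - 1 / (index Y (𝔮 c) (e c) : ℝ)) * k (J c)) →
          ∑ c, (e c * d c : ℝ) / N *
            ((1 - 1 / (index Y (𝔮 c) (e c) : ℝ)) * k (J c) - w c) ≤ n + 1 → ∀ ε : ℝ, 0 < ε →
          AlmostAll A N F Y S' R dR F' G' k' e' M Λ
            (∑ c, (e c * d c : ℝ) / N * ((1 - 1 / (index Y (𝔮 c) (e c) : ℝ)) * k (J c)) -
              (n + 1) - ε) ∧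
          Outside Z A N F Y S' R dR F' G' k' e' M Λ
            (∑ c, (e c * d c : ℝ) / N * ((1 - 1 / (index Y (𝔮 c) (e c) : ℝ)) * k (J c)) -
              (n + 1) - ε))) ∧
    (∀ e k : ℕ, k ≤ 3 → orbWeight (1 + 1 / (n : ℝ)) e k = (1 - 1 / (e : ℝ)) * k) ∧
    (n = 2 → ∀ e : ℕ, orbWeight (1 + 1 / (n : ℝ)) e 4 = (1 - 1 / (e : ℝ)) * 4) ∧
    (∀ e k : ℕ, n * k ≤ (n + 1) * (n + 2) →
      (1 - 1 / (e : ℝ)) * k - orbWeight (1 + 1 / (n : ℝ)) e k ≤ n + 1) ∧
    (∀ m e k : ℕ, k < 3 * m → orbWeight m e k = (1 - 1 / (e : ℝ)) * k) := by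
  have hn0 : (0 : ℝ) < n := by exact_mod_cast (by omega : 0 < n)
  have hnn : (0 : ℝ) < 1 / (n : ℝ) := by positivity
  obtain ⟨Z, hZ, hall⟩ := D0H41.OC.one_gen hn
  refine ⟨⟨Z, ?_, ?_⟩, ?_, ?_, ?_, ?_⟩
  · intro ε hε
    obtain ⟨B₀, hB₀⟩ := hZ ε hε
    refine ⟨B₀, fun B hB => ?_⟩
    refine le_trans (le_of_eq ?_) (hB₀ B hB)
    congr 2
    ext x
    simp only [Set.mem_ofPred_eq, TH910.Voj.mem_box]
  · intro A _ _ _ _ _ _ N hN r q t F k hhom hirr haff hdist J 𝔮 e d hP Y S' hS w hw R dR hR hR0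
      F' G' k' e' hhom' hirr' hcop M Λ
    obtain ⟨H, E, C, -, hH, hcov⟩ := D0H41.OC.cover_gen A hN F k hhom hirr haff hdist J 𝔮 hP.prime
      hP.above hP.distinct hP.all e d hP.ramification hP.residue hP.sum Y
    obtain ⟨c₀, hc₀⟩ : ∃ c₀ : ℕ, C ≤ c₀ := exists_nat_ge C
    obtain ⟨lam, hlam⟩ : ∃ lam : Fin q → ℚ, ∀ c, lam c = (e c * d c : ℕ) / (N : ℚ) :=
      ⟨_, fun _ => rfl⟩
    have hlamr : (fun c => ((lam c : ℚ) : ℝ)) = fun c => ((e c * d c : ℕ) : ℝ) / N := by
      funext c
      rw [hlam]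
      push_cast
      rfl
    have hHyp : D0H41.OC.Hyp F H J (fun c => index Y (𝔮 c) (e c)) (fun c => ((lam c : ℚ) : ℝ))
        F' G' k' R dR S' k w :=
      ⟨hhom, hirr, hH, fun c => by
        rw [hlam]
        have h1 : (0 : ℚ) ≤ (e c * d c : ℕ) / (N : ℚ) := by positivity
        exact_mod_cast h1,
        fun c => weights_le (hw c), hhom', hirr', hcop, hR, hR0, hS⟩
    have hsum : ∑ c, ((lam c : ℚ) : ℝ) * w c = ∑ c, (e c * d c : ℝ) / N * w c := by
      refine Finset.sum_congr rfl fun c _ => ?_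
      rw [hlam]
      push_cast
      rfl
    have hAA : ∀ θ : ℝ, θ < ∑ c, (e c * d c : ℝ) / N * w c →
        AlmostAll A N F Y S' R dR F' G' k' e' M Λ θ := by
      intro θ hθ
      obtain ⟨c, hc, C₁, -, h⟩ := D0H41.OC.main_gen hn F H k hHyp.hom hHyp.irr hHyp.cop J
        (fun c => index Y (𝔮 c) (e c)) (fun c => ((lam c : ℚ) : ℝ)) hHyp.lam0 w hHyp.wt F' G' k' e'
        hhom' hirr' hcop R dR hR hR0 S' hS M Λ c₀ θ (by rw [hsum]; exact hθ)
      refine ⟨c, hc, C₁, fun B hB => ?_⟩
      have h1 := h B hB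
      push_cast at h1
      refine le_trans ?_ h1
      refine Nat.cast_le.2 (Set.ncard_le_ncard ?_ ((TH910.Voj.finite_sub (n + 1) B _)))
      rintro x ⟨hx, hg, hbad⟩
      refine ⟨TH910.Voj.mem_box.2 hx, prim_of_gcd hg, fun hI => hbad ?_⟩
      refine above_of hc₀ (hcov x) ?_
      rw [← hlamr]
      exact hI
    have hOut : ∀ θ : ℝ, 0 ≤ θ → θ < ∑ c, (e c * d c : ℝ) / N * w c →
        Outside Z A N F Y S' R dR F' G' k' e' M Λ θ := by
      intro θ hθ0 hθ
      obtain ⟨T, hT⟩ := hall r q t F H J (fun c => index Y (𝔮 c) (e c)) lam F' G' k' e' R dR S' M Λ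
        c₀ k w hHyp θ hθ0 (by rw [hsum]; exact hθ)
      refine ⟨T, fun x hg hxZ hTx => above_of hc₀ (hcov x) ?_⟩
      rw [← hlamr]
      exact hT x (prim_of_gcd hg) hxZ hTx
    refine ⟨fun θ hθ => ⟨hAA θ hθ, fun hθ0 => hOut θ hθ0 hθ⟩, fun hK hgap ε hε => ?_⟩
    have hlt : ∑ c, (e c * d c : ℝ) / N * ((1 - 1 / (index Y (𝔮 c) (e c) : ℝ)) * k (J c)) -
        (n + 1) - ε < ∑ c, (e c * d c : ℝ) / N * w c := by
      have h1 : ∑ c, (e c * d c : ℝ) / N *
          ((1 - 1 / (index Y (𝔮 c) (e c) : ℝ)) * k (J c) - w c) =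
          ∑ c, (e c * d c : ℝ) / N * ((1 - 1 / (index Y (𝔮 c) (e c) : ℝ)) * k (J c)) -
          ∑ c, (e c * d c : ℝ) / N * w c := by
        rw [← Finset.sum_sub_distrib]
        exact Finset.sum_congr rfl fun c _ => mul_sub _ _ _
      rw [h1] at hgap
      linarith
    refine ⟨hAA _ hlt, ?_⟩
    have hl0 : ∀ c, (0 : ℝ) ≤ (e c * d c : ℝ) / N := fun c => by positivity
    have hw0 : ∀ c, 0 ≤ (e c * d c : ℝ) / N * w c := by
      intro c
      refine mul_nonneg (hl0 c) ?_
      rcases hw c with h | ⟨m, hm, -, h⟩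
      · rw [h]
        exact orbWeight_nonneg _ _ _ (by linarith)
      · rw [h]
        exact orbWeight_nonneg _ _ _ (by exact_mod_cast hm)
    have hpos : 0 < ∑ c, (e c * d c : ℝ) / N * w c := by
      by_contra hcon
      have hz : ∀ c, (e c * d c : ℝ) / N * w c = 0 := by
        have h1 : ∑ c, (e c * d c : ℝ) / N * w c = 0 :=
          le_antisymm (not_lt.1 hcon) (Finset.sum_nonneg fun j _ => hw0 j)
        intro j
        exact (Finset.sum_eq_zero_iff_of_nonneg fun j _ => hw0 j).1 h1 j (Finset.mem_univ j)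
      have h3 : ∑ c, (e c * d c : ℝ) / N *
          ((1 - 1 / (index Y (𝔮 c) (e c) : ℝ)) * k (J c)) = 0 := by
        refine Finset.sum_eq_zero fun c _ => ?_
        rcases mul_eq_zero.1 (hz c) with h | h
        · rw [h, zero_mul]
        · have he1 : index Y (𝔮 c) (e c) = 1 := by
            by_contra hne
            have hk1 := N445.VW.one_le_of_irr (F (J c)) (hhom (J c)) (hirr (J c))
            have h2 : 0 < w c := by
              rcases hw c with h | ⟨m, hm, -, h⟩
              · rw [h]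
                exact orbWeight_pos _ _ _ (by linarith) hne hk1
              · rw [h]
                exact orbWeight_pos _ _ _ (by exact_mod_cast hm) hne hk1
            rw [h] at h2
            exact lt_irrefl _ h2
          rw [he1]
          simp
      rw [h3] at hK
      linarith
    obtain ⟨T, hT⟩ := hOut (max (∑ c, (e c * d c : ℝ) / N *
      ((1 - 1 / (index Y (𝔮 c) (e c) : ℝ)) * k (J c)) - (n + 1) - ε) 0)
      (le_max_right _ _) (max_lt hlt hpos)
    refine ⟨T, fun x hg hxZ hTx => ?_⟩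
    refine above_mono ?_ (le_max_left _ 0) (hT x hg hxZ hTx)
    exact Real.log_natCast_nonneg _
  · intro e k hk
    have hk3 : (k : ℝ) ≤ 3 := by exact_mod_cast hk
    unfold orbWeight
    rw [if_pos (by linarith)]
  · intro h e
    subst h
    unfold orbWeight
    rw [if_pos (by norm_num)]
    norm_num
  · intro e k hk
    exact nat_gap _ e k _ (by positivity) (N445.DF.wgt_sub_gen n k hn hk)
  · intro m e k hk
    have hk' : (k : ℝ) < 3 * m := by exact_mod_cast hk
    unfold orbWeight
    rw [if_pos hk']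

end Pool.Agent.Results.MP_651af7_nt.AllCoversAllDivisors
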