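import Pool.Agent.D0H91.VM.Fin

/-!
# Metric Vojta inequality with the discriminant term: all points of degree at most two of projective space

For almost every real form `G` of degree `d ≥ 1` in `n + 1 ≥ 2` variables, Vojta's inequality holds for
`X = ℙⁿ`, `D = {G = 0}`, `S = {∞}` and ALL algebraic points of degree at most `2`, with the exact coefficient `1` of
the logarithmic discriminant, for every `ε > 0`, and without any exceptional set:

`λ_D(x) - (n + 1) h(x) - d(x) ≤ ε h(x) + C`.

Proof (Borel-Cantelli). Write the coordinates of `x` in a reduced pair of integral vectors, `x = ξ₁ u + ξ₂ v`; the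
binary form `N(X ξ₁ + Y ξ₂) / N(ideal of x) = a X² + b X Y + c Y²` has integral coefficients, its discriminant
`D = b² - 4 a c` is a square in `ℚ(x)`, the two conjugate points are `2 a u + (b ± √D) v`, and the height of `x` is
`‖2 a u + (b + √D) v‖ ‖2 a u + (b - √D) v‖ / (4 |a|)`. The measure of the set of `G` for which the inequality fails
at `x` is bounded by a minor of the Veronese vectors of the two conjugates, and the sum of these measures over all
`(u, v, a, b, c)` converges; the discriminant term is exactly what makes the sum over the binary forms converge.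
-/

set_option autoImplicit false

namespace Pool.Agent.Results.MP_651af7_nt.MetricQuadraticPoints

open MeasureTheory

/-- the value at `z` of the form of degree `d` in `n + 1` variables with real coefficient vector `G`;
the monomials are indexed by the multisets of `d` variables -/
noncomputable def value {n d : ℕ} (G : Sym (Fin (n + 1)) d → ℝ) (z : Fin (n + 1) → ℂ) : ℂ :=
  ∑ s : Sym (Fin (n + 1)) d, (G s : ℂ) * ((s : Multiset (Fin (n + 1))).map z).prod

/-- the archimedean local height of the hypersurface `G = 0` at the point with coordinates `x`: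
the mean over all embeddings `φ : L → ℂ` of `log (max_i |φ (x_i)| ^ d / |G (φ x)|)` -/
noncomputable def localHeight {n d : ℕ} (G : Sym (Fin (n + 1)) d → ℝ) {L : Type} [Field L] [NumberField L]
    (x : Fin (n + 1) → L) : ℝ :=
  (∑ φ : L →+* ℂ, Real.log ((⨆ i, ‖φ (x i)‖) ^ d / ‖value G (fun i => φ (x i))‖)) / Module.finrank ℚ L

/-- the absolute logarithmic height of the point with coordinates `x` -/
noncomputable def height {n : ℕ} {L : Type} [Field L] [NumberField L] (x : Fin (n + 1) → L) : ℝ :=
  Height.logHeight x / Module.finrank ℚ L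

/-- the logarithmic discriminant -/
noncomputable def logDisc (L : Type) [Field L] [NumberField L] : ℝ :=
  Real.log |(NumberField.discr L : ℝ)| / Module.finrank ℚ L

theorem result : ∀ n d : ℕ, 1 ≤ n → 1 ≤ d → ∀ᵐ G : Sym (Fin (n + 1)) d → ℝ, ∀ ε : ℝ, 0 < ε → ∃ C : ℝ,
    ∀ (L : Type) [Field L] [NumberField L], Module.finrank ℚ L ≤ 2 → ∀ x : Fin (n + 1) → L, x ≠ 0 →
      (∀ φ : L →+* ℂ, value G (fun i => φ (x i)) ≠ 0) ∧
      localHeight G x + (-((n : ℝ) + 1)) * height x - logDisc L ≤ ε * height x + C := by
  intro n d hn hd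
  obtain ⟨e, rfl⟩ : ∃ e, d = e + 1 := ⟨d - 1, by omega⟩
  filter_upwards [Pool.Agent.D0H91.VM.main n e hn] with G hG ε hε
  obtain ⟨C, hC⟩ := hG ε hε
  refine ⟨C, fun L _ _ hL x hx => ?_⟩
  obtain ⟨h1, h2⟩ := hC L hL x hx
  refine ⟨h1, ?_⟩
  have h3 : localHeight G x = (∑ φ : L →+* ℂ, Pool.Agent.D0H91.VM.loc G (fun i => φ (x i))) / Module.finrank ℚ L := by
    unfold localHeight Pool.Agent.D0H91.VM.loc
    congr 1
    refine Finset.sum_congr rfl fun φ _ => ?_
    have h4 : (⨆ i, ‖φ (x i)‖) = ‖fun i => φ (x i)‖ := by
      have h5 := Pool.Agent.D0H91.VM.iSup_emb x φ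
      rw [← h5]
      congr 1
    rw [h4]
    rfl
  rw [h3]
  unfold height logDisc
  linarith

end Pool.Agent.Results.MP_651af7_nt.MetricQuadraticPoints
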