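import Mathlib
import Pool.Agent.D0H48.Mv.Uni
import Pool.Agent.D0H48.Mv.Conv

/-!
# Vojta's inequality above the good approximations of almost every point: all products of curves, all
# divisors, all `S`, algebraic points of arbitrary degree

Let `K` be a number field and `m ≥ 1`. For a point `θ` of `ℝ^m` (if `K` has a real place; `K = ℚ` for
example) we consider the tuples `x ∈ K^m` with

`|θ - x| ≤ H(x) ^ (-(2 m - δ) / m)`, `H(x)` the maximum of the heights (relative to `K`) of the `x_i`. (1)

For almost all `θ` the exponent `2` cannot be improved, and for `K = ℚ` there are infinitely many `x`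
with (1), for all `δ > 0` (last part of the theorem). We prove that for almost every `θ` Vojta's
conjectured inequality, in the strong form with the discriminant term, holds at ALL algebraic points,
of arbitrary degree, above ALL tuples `x` with (1), on all products `V = C_1 × … × C_m` of smooth
projective curves over all number fields, for all tuples of finite maps `t_i : C_i → ℙ¹` which are
unramified outside the fibres over some rational points `a_1, …, a_q ≠ ∞` (by Belyi's theorem every
curve over a number field has such a map, and every given finite set of points of the curve can be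
assumed to be in the fibres), and all effective divisors `D` on `V` which are contained in sums of
reduced fibres and of pull-backs `G` of arbitrary divisors of `(ℙ¹)^m` (that is all effective divisors
on `V` over `ℚ`, with or without normal crossings): if `δ` is sufficiently small, depending only on `κ`,
the `a_j` and the multidegree of `G`, then there is a constant `c` with

`m_S(F, P) + m_T(G, P) + ∑_i (2 + (deg K_{C_i}) / N_i - κ) h(x_i) ≤ d(L) + ∑_{p ∈ S} log p + c`

for all finite sets `S` of prime numbers, all `x` with (1) and all points `P` of `V` above `x`, defined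
over a number field `L`. The exceptional set of the `θ` does not depend on the curves, the maps, the
divisors, `S`, `T`, `κ`, …: it is a countable union of sets of dimension less than `m`, which depends on
`K` and `m` only.

In the starting files of this folder the inequality is known for all `x` outside an exceptional set `E`
of density zero. The tuples with (1) form a very sparse set (of about `(log B)^m` tuples of height at
most `B`), which could be contained in `E`.

The first part of the theorem is more general: let `Y` be any metric space, `ι` any map from `K^m` to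
`Y`, `s > 0`; outside a countable union of sets of Hausdorff dimension LESS than `s` of `Y` the
inequality holds at the points above all `x` with `dist(θ, ι(x)) ≤ H(x) ^ (-(2 m - δ) / s)`. Examples:

* `Y = ℝ^m`, `s < m`: for `K = ℚ` the `θ` with infinitely many such `x` form a set of dimension `s`
  (Jarník); so almost all of them, in the sense of dimension, are not exceptional.
* `Y = (K ⊗ ℝ)^m`, `s = m [K : ℚ]`, or `Y` the product of the completions of `K` at some real, complex
  or `p`-adic places: the second part is the case of all real vector spaces `Y` and Haar measures.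
* `Y` the curve itself, over `ℝ` or `ℂ`, `ι` a local inverse of the map `t : C → ℙ¹`.

Proof. The exceptional sets `E_κ` of the starting files (OneExceptionalSet and the sets for the
proximity functions of UniversalExceptionalSet) for fixed `κ`, `a_j` have power-saving size: at most
`C B ^ (2 m - ν)` tuples of height at most `B`. The `θ` which have infinitely many approximations with
(1) in `E_κ`, `δ < ν`, form a set of smaller dimension (natural covers of a limsup set). There are
countably many `κ = 1 / j` and `a_1, …, a_q`.
-/

set_option autoImplicit false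

namespace Pool.Agent.Results.MP_651af7_nt.MetricVojta

open Polynomial IsDedekindDomain NumberField

/-- The function `t` on the curve with the ring of functions `A`. -/
noncomputable def coord (k A : Type) [Field k] [CommRing A] [Algebra k[X] A] : A :=
  algebraMap k[X] A X

/-- The absolute logarithmic height of the point `x` of the line. -/
noncomputable def height {K : Type} [Field K] [NumberField K] (x : K) : ℝ :=
  Height.logHeight₁ x / Module.finrank ℚ K

/-- `max (0, - log max_l c_l)` -/
noncomputable def minusLog {s : ℕ} (c : Fin (s + 1) → ℝ) : ℝ := max 0 (-Real.log (⨆ l, c l))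

open Classical in
/-- The proximity function `m_S(F, P)`: the sum over the infinite places `w` (with
`mult w = [L_w : ℝ]`) and the primes `v` above the primes of `S` of the local heights of `F`, divided
by `[L : ℚ]`. The absolute values are normalised so that the product formula holds:
`|b|_v = N(v) ^ (- v(b))`. -/
noncomputable def proximity {k : Type} [Field k] {m q : ℕ} {A : Fin m → Type}
    [∀ i, CommRing (A i)] [∀ i, Algebra k (A i)] (S : Finset ℕ)
    (u : Fin m → Fin q → ℕ) (y : ∀ i j, Fin (u i j + 1) → A i)
    {L : Type} [Field L] [NumberField L] [Algebra k L] (φ : ∀ i, A i →ₐ[k] L) : ℝ :=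
  (∑ w : InfinitePlace L, (w.mult : ℝ) * (∑ i, ∑ j, minusLog (fun l => w (φ i (y i j l)))) +
    ∑ᶠ v : HeightOneSpectrum (𝓞 L), if ∃ p ∈ S, (p : 𝓞 L) ∈ v.asIdeal then
      (∑ i, ∑ j, minusLog (fun l => FinitePlace.mk v (φ i (y i j l)))) else 0) /
    Module.finrank ℚ L

/-- The proximity function `m_T(G, x)` of the effective divisor `G = 0` of `(ℙ¹)^m` of multidegree
`(n, …, n)` at the point `x`: the sum of its local heights over the infinite places (with their
multiplicities) and the finite places in `T`, divided by `[K : ℚ]`. -/
noncomputable def proximityG {K : Type} [Field K] [NumberField K] {m : ℕ} (n : ℕ)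
    (G : MvPolynomial (Fin m) K) (T : Finset (FinitePlace K)) (x : Fin m → K) : ℝ :=
  (∑ w : InfinitePlace K, (w.mult : ℝ) *
      Real.log ((∏ i, max (w (x i)) 1) ^ n / w (MvPolynomial.eval x G)) +
    ∑ v ∈ T, Real.log ((∏ i, max (v (x i)) 1) ^ n / v (MvPolynomial.eval x G))) /
    Module.finrank ℚ K

/-- The (absolute) logarithmic discriminant `d(L) = log |disc L| / [L : ℚ]`. -/
noncomputable def logDisc (L : Type) [Field L] [NumberField L] : ℝ :=
  Real.log |(NumberField.discr L : ℝ)| / Module.finrank ℚ L

/-- `q - (∑_j dim (A / (y_{j 0}, y_{j 1}, …))) / N`, where `N` is the rank of `A` over `k[t]`. -/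
noncomputable def degree (k : Type) {A : Type} [Field k] [CommRing A] [Algebra k A]
    [Algebra k[X] A] {q : ℕ} {u : Fin q → ℕ} (y : ∀ j, Fin (u j + 1) → A) : ℝ :=
  q - (∑ j, (Module.finrank k (A ⧸ Ideal.span (Set.range (y j))) : ℝ)) / Module.finrank k[X] A

/-- the maximum of the logarithmic heights (relative to `K`) of the coordinates of `x` -/
noncomputable def maxHeight {K : Type} [Field K] [NumberField K] {m : ℕ} (x : Fin m → K) : ℝ :=
  ⨆ i, Height.logHeight₁ (x i)

/-- The tuples `x` of elements of `K` which are good approximations of the point `θ` of a metric space,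
in which `x` is represented by `ι x`: the distance is at most `H ^ (-(2 m - δ) / s)`, where
`H = exp (maxHeight x)` is the maximum of the heights of the coordinates. -/
def Near {K : Type} [Field K] [NumberField K] {m : ℕ} {Y : Type} [MetricSpace Y]
    (ι : (Fin m → K) → Y) (s : ℝ) (θ : Y) (δ : ℝ) : Set (Fin m → K) :=
  {x | dist θ (ι x) ≤ Real.exp (-((2 * m - δ) / s * maxHeight x))}

/-- **Vojta's inequality for all products of curves and all divisors, at the points above the tuples
in `W δ`** (where the sets `W δ` shrink as `δ` tends to `0`). -/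
def VojtaAlong (K : Type) [Field K] [NumberField K] (m : ℕ) (W : ℝ → Set (Fin m → K)) : Prop :=
  -- for all finite sets of rational points of the line, all `n` and all `κ`
  ∀ q : ℕ, 3 ≤ q → ∀ a : Fin q → ℚ, Function.Injective a → ∀ n : ℕ, 1 ≤ n → ∀ κ : ℝ, 0 < κ →
  ∃ δ : ℝ, 0 < δ ∧
    -- for all curves and maps over all number fields, with generators of the reduced fibres
    ∀ (k : Type) [Field k] [NumberField k] (A : Fin m → Type)
      [∀ i, CommRing (A i)] [∀ i, IsDedekindDomain (A i)] [∀ i, Algebra k (A i)]
      [∀ i, Algebra k[X] (A i)] [∀ i, IsScalarTower k k[X] (A i)]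
      [∀ i, Module.Finite k[X] (A i)] [∀ i, FaithfulSMul k[X] (A i)]
      (u : Fin m → Fin q → ℕ) (y : ∀ i j, Fin (u i j + 1) → A i),
      (∀ i j, y i j 0 = coord k (A i) - algebraMap k (A i) (algebraMap ℚ k (a j))) →
      (∀ i j l, y i j l ∈
        (Ideal.span {coord k (A i) - algebraMap k (A i) (algebraMap ℚ k (a j))}).radical) →
      -- for all divisors `G = 0` of multidegree `(n, …, n)` and all `T`
      ∀ G : MvPolynomial (Fin m) K, (∀ i, G.degreeOf i ≤ n) → ∀ T : Finset (FinitePlace K),
      ∃ c : ℝ, ∀ x ∈ W δ, (∀ i j, x i ≠ algebraMap ℚ K (a j)) →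
        MvPolynomial.eval x G ≠ 0 →
        -- for all points `P = (φ_i)` over `x` and all `S`
        ∀ (L : Type) [Field L] [NumberField L] [Algebra K L] [Algebra k L]
          (φ : ∀ i, A i →ₐ[k] L),
          (∀ i, φ i (coord k (A i)) = algebraMap K L (x i)) →
          ∀ S : Finset ℕ, (∀ p ∈ S, p.Prime) →
            proximity S u y φ + proximityG n G T x +
                ∑ i, (degree k (y i) - κ) * height (x i) ≤
              logDisc L + ∑ p ∈ S, Real.log p + c

/-- **Vojta's inequality for all products of curves, all divisors, all `S`, all algebraic points above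
the good approximations of almost every point.** -/
theorem result (K : Type) [Field K] [NumberField K] (m : ℕ) (hm : 0 < m) :
    -- for all metric spaces, outside a countable union of sets of smaller dimension
    (∀ (Y : Type) [MetricSpace Y] (ι : (Fin m → K) → Y) (s : ℝ), 0 < s →
      ∃ Θ : ℕ → Set Y, (∀ i, dimH (Θ i) < ENNReal.ofReal s) ∧
        ∀ θ, (∀ i, θ ∉ Θ i) → VojtaAlong K m (Near ι s θ)) ∧
    -- for almost all points of real vector spaces
    (∀ (E : Type) [NormedAddCommGroup E] [NormedSpace ℝ E] [FiniteDimensional ℝ E] [Nontrivial E]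
      [MeasurableSpace E] [BorelSpace E] (μ : MeasureTheory.Measure E) [μ.IsAddHaarMeasure]
      (ι : (Fin m → K) → E),
      ∀ᵐ θ ∂μ, VojtaAlong K m (Near ι (Module.finrank ℝ E) θ)) ∧
    -- the rational approximations of real points are infinitely many
    (∀ᵐ θ : Fin m → ℝ, ∀ δ : ℝ, 0 < δ →
      (Near (fun (x : Fin m → ℚ) i => (x i : ℝ)) m θ δ).Infinite) := by
  have key : ∀ (Y : Type) [MetricSpace Y] (ι : (Fin m → K) → Y) (s : ℝ), 0 < s →
      ∃ Θ : ℕ → Set Y, (∀ i, dimH (Θ i) < ENNReal.ofReal s) ∧
        ∀ θ, (∀ i, θ ∉ Θ i) → VojtaAlong K m (Near ι s θ) := by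
    intro Y _ ι s hs
    obtain ⟨Θ, hΘ, hall⟩ := D0H48.Mv.univ_metric K hm ι s hs
    refine ⟨Θ, hΘ, fun θ hθ => ?_⟩
    obtain ⟨hA, hB⟩ := hall θ hθ
    intro q hq a ha n hn κ hκ
    have hnR : (1 : ℝ) ≤ n := by exact_mod_cast hn
    obtain ⟨δ1, κ', E', hδ1, hκ'0, hκ', hI, hF1⟩ := hA q hq a ha (κ / 2) (by positivity)
    obtain ⟨δ2, ε', E'', hδ2, hε'0, hε', hJ, hF2⟩ := hB (κ / (2 * n)) (by positivity)
    refine ⟨min δ1 δ2, lt_min hδ1 hδ2, ?_⟩
    intro k _ _ A _ _ _ _ _ _ _ u y hy0 hyr G hG T
    have h1 := hF1 (min δ1 δ2) (min_le_left _ _)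
    have h2 := hF2 (min δ1 δ2) (min_le_right _ _)
    obtain ⟨c, hc⟩ := D0H48.Mv.ineq_final K m hm (Near ι s θ (min δ1 δ2))ᶜ q a κ κ' hκ' E' hI
      (h1.subset (by
        rintro x ⟨hx, hx2⟩
        exact ⟨hx, by_contra fun h => hx2 h⟩)) n hn ε' hε' hκ E'' hJ
      (h2.subset (by
        rintro x ⟨hx, hx2⟩
        exact ⟨hx, by_contra fun h => hx2 h⟩)) k A u y hy0 hyr G hG T
    exact ⟨c, fun x hx => hc x (fun h => h hx)⟩
  refine ⟨key, ?_, ?_⟩
  · intro E _ _ _ _ _ _ μ _ ι
    obtain ⟨Θ, hΘ, hall⟩ := key E ι (Module.finrank ℝ E) (by exact_mod_cast Module.finrank_pos)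
    have h1 : ∀ᵐ θ ∂μ, ∀ i, θ ∉ Θ i := by
      rw [MeasureTheory.ae_all_iff]
      intro i
      apply MeasureTheory.measure_eq_zero_iff_ae_notMem.1
      exact D0H48.Mv.haar_null μ _ (hΘ i)
    filter_upwards [h1] with θ hθ
    exact hall θ hθ
  · filter_upwards [D0H48.Mv.ae_conv m] with θ hθ δ hδ
    exact D0H48.Mv.conv_infinite hm θ hθ δ hδ

end Pool.Agent.Results.MP_651af7_nt.MetricVojta
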