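import Pool.Agent.D0H97.VV.Ex
import Pool.Agent.D0H97.VV.Fn
import Pool.Agent.D0H97.VV.Ap
import Pool.Agent.D0H97.FX.Fi

set_option autoImplicit false

/-!
# Vojta's inequality for algebraic points of bounded degree whose coordinates are short sums of
# powers of one arbitrary integer or of products of factorials

Let `V` be a closed subvariety of `ℙ^n` over a number field `K`, with function field `E` and generic
point `y`, and let `Y`, of any codimension, be the set of the common zeros on `V` of forms `F j` of
positive degrees over `K`. Let `X` be a log resolution of `(V, Y)`, `D` the inverse image of `Y` and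
`h` the height on `V ⊆ ℙ^n`.

We prove Vojta's inequality `h_{K_X + D} (x) ≤ N_∞ (D, x) + ε h (x) + C (1 + T)`, `N_∞ (D, x)` the
contribution of the finite places to the height `h_D (x)`, outside of a closed subset, for the
algebraic points `x` of degree at most `r` whose coordinates are sums `∑ j, a j * s j`, where the
`a j` are elements of height at most `T` of a number field `L ⊇ K` of bounded degree, and the vector
`(s j)` of natural numbers belongs to a coherent family. For example

* `s j = m ^ e j`, where the number `m` and the exponents `e j` are arbitrary: the coordinates have few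
  digits in an arbitrary base, which varies with the point, or they are the values at an arbitrary
  number of polynomials of arbitrary degree with few terms;
* the `s j` are products of boundedly many factorials, double factorials, or other products of the
  first terms of arithmetic progressions.

No integrality of the points is assumed, nor anything about the divisor class `K_X + D`, the
discriminant of `L` does not occur, and the closed subset and `C` do not depend on `L`, `T` and `s`.

The multiples of the class `K_X + D` are represented as differences: we use sections `ω i` of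
`m (K_X + D) + k h` and forms `G i` on `ℙ^n` with the same ratios as the sections `ω i`, so that
`h (G (x))` is the height `h_{m (K_X + D)} (x) + k h (x)` if the sections `ω i` have no common zero.
-/

namespace Pool.Agent.Results.MP_651af7_nt.VojtaInequality

open NumberField IsDedekindDomain Height
open Pool.Agent.W602.GT (coords IsPluri Divisorial LogAt RegAt)

/-- A family `𝒮` of vectors of natural numbers is coherent: for every `ε > 0`, all sufficiently large
`ℓ` and all `s ∈ 𝒮` there is one number `d` such that all coordinates of `s` which are at most `exp ℓ`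
are products of a power of `d` and a number which is at most `exp (ε ℓ)`. -/
def Coherent {N : ℕ} (𝒮 : Set (Fin N → ℕ)) : Prop :=
  ∀ ε : ℝ, 0 < ε → ∃ ℓ₀ : ℝ, ∀ ℓ : ℝ, ℓ₀ ≤ ℓ → ∀ s ∈ 𝒮, ∃ d : ℕ, ∀ j, Real.log (s j) ≤ ℓ →
    ∃ e r : ℕ, s j = d ^ e * r ∧ Real.log r ≤ ε * ℓ

/-- The product of the first `m` terms `b, a + b, 2 a + b, …` of an arithmetic progression; for
`a = b = 1` this is `m !`. -/
def progressionProduct (a b m : ℕ) : ℕ := ∏ k ∈ Finset.range m, (a * k + b)

section geometry

variable {K : Type} [Field K] {n w : ℕ} {E : Type} [Field E] [Algebra K E]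

/-- `P` is a prime divisor of a normal model of the function field `E` whose centre on the closed
subvariety `V` of `ℙ^n` with generic point `y` lies in the set `Y` of the common zeros of the forms
`F j`, of degrees `d j`; that is, `P` has no centre on `V \ Y`. -/
def NoCentre (F : Fin w → MvPolynomial (Fin (n + 1)) K) (d : Fin w → ℕ) (y : Fin (n + 1) → E)
    (P : FF.Place K E) : Prop :=
  ∃ i, y i ≠ 0 ∧ ∀ j, MvPolynomial.aeval y (F j) = 0 ∨
    d j * P.ord (y i) < P.ord (MvPolynomial.aeval y (F j))

/-- `ω` is a section of `m (K_X + D) + k h`, where `h` is the class of the hyperplane sections of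
`V ⊆ ℙ^n`: a rational `m`-canonical form such that at every prime divisor `P` of the normal models
of the function field `E`, of transcendence degree `p`, some `ω / y_i ^ k` (equivalently, the one
for which `y_i` generates the fractional ideal of `(y_0, …, y_n)` at `P`) has at most a logarithmic
pole, and is regular if `P` has a centre on `V \ Y`. -/
def LogSection {p : ℕ} (m k : ℕ) (F : Fin w → MvPolynomial (Fin (n + 1)) K) (d : Fin w → ℕ)
    (y : Fin (n + 1) → E) (ω : (Fin p → Derivation K E E) → E) : Prop :=
  IsPluri m ω ∧ ∀ P : FF.Place K E, Divisorial p P → ∃ i, y i ≠ 0 ∧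
    LogAt P (fun D => ω D / y i ^ k) ∧ (¬ NoCentre F d y P → RegAt P fun D => ω D / y i ^ k)

/-- The point with homogeneous coordinates `x` in the extension `L` of `K` lies on the closed
subvariety `V` of `ℙ^n` with generic point `y`. -/
def OnV (y : Fin (n + 1) → E) {L : Type} [Field L] [Algebra K L] (x : Fin (n + 1) → L) : Prop :=
  ∀ g : MvPolynomial (Fin (n + 1)) K, (∃ e, g.IsHomogeneous e) → MvPolynomial.aeval y g = 0 →
    MvPolynomial.aeval x g = 0

end geometry

section arithmetic

/-- `∑_v - log max_j |y_j|_v`, over all finite places `v` of `L`. For algebraic integers `y j` this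
is the logarithm of the norm of the ideal which they generate. -/
noncomputable def gcdHeight {L : Type} [Field L] [NumberField L] {w : ℕ} (y : Fin w → L) : ℝ :=
  ∑ᶠ v : HeightOneSpectrum (𝓞 L), -Real.log (⨆ j, FinitePlace.mk v (y j))

/-- `∑_v - log max_j (|F_j (x)|_v / max_i |x_i|_v ^ d_j)`, over all finite places `v` of `L`: the
counting function of the common zeros of the forms `F j`, of degrees `d j`, at the point `x` of
`ℙ^n`. -/
noncomputable def counting {K : Type} [Field K] {n w : ℕ}
    (F : Fin w → MvPolynomial (Fin (n + 1)) K) (d : Fin w → ℕ)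
    {L : Type} [Field L] [NumberField L] [Algebra K L] (x : Fin (n + 1) → L) : ℝ :=
  ∑ᶠ v : HeightOneSpectrum (𝓞 L), -Real.log (⨆ j, FinitePlace.mk v (MvPolynomial.aeval x (F j)) /
    (⨆ i, FinitePlace.mk v (x i)) ^ d j)

/-- The `x i` are sums `∑ j, a i j * s j` for one vector `s` of the family `𝒮`, with elements `a i j`
of `L` of logarithmic height at most `T`. -/
def ShortSum {L : Type} [Field L] [NumberField L] {N : ℕ} (𝒮 : Set (Fin N → ℕ)) (T : ℝ) {n : ℕ}
    (x : Fin (n + 1) → L) : Prop :=
  ∃ s ∈ 𝒮, ∃ a : Fin (n + 1) → Fin N → L, (∀ i j, logHeight₁ (a i j) ≤ T) ∧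
    ∀ i, x i = ∑ j, a i j * s j

end arithmetic

/-- **Theorem.** (1) The family of all vectors `(m ^ e 1, …, m ^ e N)`, with arbitrary `m` and `e j`,
and the family of all vectors whose coordinates are products of `D` products of the first terms of
arithmetic progressions, of arbitrary lengths, with first term and difference at most `B`, are
coherent.

(2) Let `K` be a number field, `V ⊆ ℙ^n` a closed subvariety over `K` of dimension `p`, with function
field `E` and generic point `y`, and `F j` forms over `K` of positive degrees, with the set `Y` of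
common zeros. Let `ω i` be sections of `m (K_X + D) + k h`, `m > 0`, not all zero, and `G i` forms
of one degree which have the same ratios on `V` as the `ω i`. Let `𝒮` be a coherent family and `r`
a natural number. Then for every `ε > 0` there are a form `H` over `K` which does not vanish on `V`
and a number `C` such that
`h (G (x)) ≤ m gcdHeight (F (x)) + k (h (x) + gcdHeight (x)) + ε h (x) + C (1 + T)`
for all `T ≥ 0`, all number fields `L ⊇ K` of degree at most `r` over `K`, and all points of
`V \ Y` with homogeneous coordinates `x` in `L` as in `ShortSum 𝒮 T`, outside of `H = 0`. In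
particular, if one of the coordinates `x i` is `1`, then
`h (G (x)) ≤ m N_∞ (D, x) + k h (x) + ε h (x) + C (1 + T)`,
where `N_∞ (D, x)` is the counting function of `Y`. -/
theorem result :
    ((∀ N : ℕ, Coherent {s : Fin N → ℕ | ∃ (m : ℕ) (e : Fin N → ℕ), ∀ j, s j = m ^ e j}) ∧
      ∀ N D B : ℕ, Coherent {s : Fin N → ℕ | ∀ j, ∃ a b m : Fin D → ℕ,
        (∀ i, 1 ≤ a i ∧ a i ≤ B ∧ 1 ≤ b i ∧ b i ≤ B) ∧
          s j = ∏ i, progressionProduct (a i) (b i) (m i)}) ∧
    ∀ (K : Type) [Field K] [NumberField K] (n w : ℕ)
    (F : Fin w → MvPolynomial (Fin (n + 1)) K) (d : Fin w → ℕ), (∀ j, 0 < d j) →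
    (∀ j, (F j).IsHomogeneous (d j)) →
    -- the variety `V`
    ∀ (E : Type) [Field E] [Algebra K E] (p : ℕ), Algebra.trdeg K E = p →
    ∀ (y : Fin (n + 1) → E), y ≠ 0 → coords K y = ⊤ →
    -- sections of `m (K_X + D) + k h`, and forms with the same ratios
    ∀ (m k : ℕ), 0 < m → ∀ (u g : ℕ) (ω : Fin u → (Fin p → Derivation K E E) → E)
      (G : Fin u → MvPolynomial (Fin (n + 1)) K),
    (∀ i, LogSection m k F d y (ω i)) → (∃ i D, ω i D ≠ 0) →
    (∀ i, (G i).IsHomogeneous g) → (∃ i, MvPolynomial.aeval y (G i) ≠ 0) →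
    (∀ i j D, MvPolynomial.aeval y (G i) * ω j D = MvPolynomial.aeval y (G j) * ω i D) →
    -- the points
    ∀ (N : ℕ) (𝒮 : Set (Fin N → ℕ)), Coherent 𝒮 → ∀ (r : ℕ) (ε : ℝ), 0 < ε →
    ∃ (H : MvPolynomial (Fin (n + 1)) K) (e : ℕ), H.IsHomogeneous e ∧
      MvPolynomial.aeval y H ≠ 0 ∧ ∃ C : ℝ, ∀ T : ℝ, 0 ≤ T →
        ∀ (L : Type) [Field L] [NumberField L] [Algebra K L], Module.finrank K L ≤ r →
          ∀ x : Fin (n + 1) → L, ShortSum 𝒮 T x → OnV (K := K) y x →
            (∃ j, MvPolynomial.aeval x (F j) ≠ 0) → MvPolynomial.aeval x H ≠ 0 →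
            logHeight (fun i => MvPolynomial.aeval x (G i)) ≤
              m * gcdHeight (fun j => MvPolynomial.aeval x (F j)) +
                k * (logHeight x + gcdHeight x) + ε * logHeight x + C * (1 + T) ∧
            ((∃ i, x i = 1) → logHeight (fun i => MvPolynomial.aeval x (G i)) ≤
              m * counting F d x + k * logHeight x + ε * logHeight x + C * (1 + T)) := by
  classical
  refine ⟨⟨fun N => Pool.Agent.D0H97.VV.coh_pow N, fun N D B => ?_⟩, ?_⟩
  · intro ε hε
    obtain ⟨ℓ₀, h⟩ := Pool.Agent.D0H97.VV.coh_prod (Pool.Agent.D0H97.VV.coherent_ap B) N D ε hε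
    refine ⟨ℓ₀, fun ℓ hℓ s hs => h ℓ hℓ s fun j => ?_⟩
    obtain ⟨a, b, m, hab, hsj⟩ := hs j
    exact ⟨fun i => progressionProduct (a i) (b i) (m i), fun i =>
      ⟨a i, b i, m i, (hab i).1, (hab i).2.1, (hab i).2.2.1, (hab i).2.2.2, rfl⟩, hsj⟩
  intro K _ _ n w F d hd hF E _ _ p hp y hy hgen m k hm u g ω G hω hω0 hG hG0 hrat N 𝒮 h𝒮 r ε hε
  obtain ⟨H, e, hH, hHy, C, hC⟩ := Pool.Agent.D0H97.VV.boundW h𝒮 hp hy hgen F d hd hF hm k ω hω G
    hG hrat hω0 hG0 ε hε (Module.finrank ℚ K * r)
    (Finset.univ.image fun j : Fin N => Finsupp.single j 1) N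
  refine ⟨H, e, hH, hHy, C, ?_⟩
  intro T hT L _ _ _ hL x hx hV hFx hHx
  have hr : Module.finrank ℚ L ≤ Module.finrank ℚ K * r := by
    rw [← Module.finrank_mul_finrank ℚ K L]
    exact Nat.mul_le_mul_left _ hL
  obtain ⟨s, hs, a, ha, hxa⟩ := hx
  have h1 := hC L hr T hT x (Pool.Agent.D0H97.VV.sum_Rq s hs a ha hT hxa) hFx
    (fun g hg h0 => hV g hg h0) hHx
  have h2 : gcdHeight (fun j => MvPolynomial.aeval x (F j)) =
      -Pool.Agent.K1H83.VN.ho (Pool.Agent.D0H97.FT.Si L) (fun j => MvPolynomial.aeval x (F j)) :=
    Pool.Agent.D0H97.FT.gcd_eq (L := L) fun j => MvPolynomial.aeval x (F j)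
  have h3 : gcdHeight x = -Pool.Agent.K1H83.VN.ho (Pool.Agent.D0H97.FT.Si L) x :=
    Pool.Agent.D0H97.FT.gcd_eq (L := L) x
  have h4 : logHeight (fun i => MvPolynomial.aeval x (G i)) ≤
      m * gcdHeight (fun j => MvPolynomial.aeval x (F j)) +
        k * (logHeight x + gcdHeight x) + ε * logHeight x + C * (1 + T) := by
    rw [h2, h3]
    linarith
  refine ⟨h4, fun ⟨i, hi⟩ => ?_⟩
  have h5 : gcdHeight x ≤ 0 := Pool.Agent.D0H97.VV.gcd_nonpos x i hi
  have h6 : gcdHeight (fun j => MvPolynomial.aeval x (F j)) ≤ counting F d x :=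
    Pool.Agent.D0H97.VV.gcd_le_count x i hi d (fun j => MvPolynomial.aeval x (F j)) hFx
  have h7 : (m : ℝ) * gcdHeight (fun j => MvPolynomial.aeval x (F j)) ≤ m * counting F d x :=
    mul_le_mul_of_nonneg_left h6 (Nat.cast_nonneg _)
  have h8 : (k : ℝ) * (logHeight x + gcdHeight x) ≤ k * logHeight x :=
    mul_le_mul_of_nonneg_left (by linarith) (Nat.cast_nonneg _)
  linarith

end Pool.Agent.Results.MP_651af7_nt.VojtaInequality
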